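import Pool.Agent.X139.FixSets

/-!
# MP_087ef2_pr : fixed points and extinction vectors of irreducible branching random walks
-/

set_option autoImplicit false

open Filter Topology Set MeasureTheory ProbabilityTheory
open scoped ENNReal
open Pool.Agent.H632R3.Branch Pool.Agent.X139.Fix

namespace Pool.Agent.Results.MP_087ef2_pr.Dichotomy

noncomputable section

variable {X : Type}

/-- `m_{xy} > 0`: with positive probability a particle at `x` has a child at `y`. -/
def Reproduces (μ : X → PMF (X →₀ ℕ)) (x y : X) : Prop := ∃ f : X →₀ ℕ, μ x f ≠ 0 ∧ f y ≠ 0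

/-- Irreducibility of the BRW: finite paths with `m > 0` join any two sites. -/
def IsIrreducible (μ : X → PMF (X →₀ ℕ)) : Prop :=
  ∀ x y, Relation.ReflTransGen (Reproduces μ) x y

/-- The number of particles in `A` in the configuration `z`. -/
def countIn (A : Set X) (z : X →₀ ℕ) : ℕ :=
  letI := Classical.decPred (· ∈ A)
  z.sum fun y k => if y ∈ A then k else 0

/-- `q(x, A) = 1 - P(limsup_n ∑_{y ∈ A} η_n(y) > 0)`, for the process started from one particle
at `x`. -/
def q [Countable X] (μ : X → PMF (X →₀ ℕ)) (A : Set X) (x : X) : ℝ :=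
  1 - (law μ).real {ω | 0 < limsup (fun n => (countIn A (pop x ω n) : ℕ∞)) atTop}

/-- The fixed points of the generating function in `[0,1]^X`. -/
def F [Countable X] (μ : X → PMF (X →₀ ℕ)) : Set (X → ℝ) :=
  {z | (∀ x, 0 ≤ z x ∧ z x ≤ 1) ∧ gen μ z = z}

/-- The extinction probability vectors. -/
def E [Countable X] (μ : X → PMF (X →₀ ℕ)) : Set (X → ℝ) := {z | ∃ A : Set X, z = q μ A}

lemma countIn_eq_zero (A : Set X) (z : X →₀ ℕ) : countIn A z = 0 ↔ ∀ y ∈ A, z y = 0 := by
  classical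
  unfold countIn Finsupp.sum
  rw [Finset.sum_eq_zero_iff]
  constructor
  · intro h y hy
    by_contra hne
    have := h y (Finsupp.mem_support_iff.mpr hne)
    simp only [hy, if_true] at this
    exact hne this
  · intro h y _
    by_cases hy : y ∈ A
    · simp [hy, h y hy]
    · simp [hy]

lemma limsup_pos_iff (u : ℕ → ℕ) :
    0 < limsup (fun n => (u n : ℕ∞)) atTop ↔ ¬ ∃ N, ∀ n, N ≤ n → u n = 0 := by
  rw [limsup_eq_iInf_iSup_of_nat]
  constructor
  · rintro h ⟨N, hN⟩
    have h1 : (⨅ n, ⨆ i, ⨆ (_ : i ≥ n), (u i : ℕ∞)) ≤ 0 := by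
      refine (iInf_le _ N).trans ?_
      refine iSup_le fun i => iSup_le fun hi => ?_
      rw [hN i hi]
      simp
    exact absurd h (not_lt.mpr h1)
  · intro h
    push Not at h
    have h1 : (1 : ℕ∞) ≤ ⨅ n, ⨆ i, ⨆ (_ : i ≥ n), (u i : ℕ∞) := by
      refine le_iInf fun n => ?_
      obtain ⟨i, hi, hu⟩ := h n
      refine le_trans ?_ (le_iSup₂ (f := fun i (_ : i ≥ n) => (u i : ℕ∞)) i hi)
      exact_mod_cast Nat.one_le_iff_ne_zero.mpr hu
    exact lt_of_lt_of_le (by norm_num) h1

lemma q_eq [Countable X] (μ : X → PMF (X →₀ ℕ)) (A : Set X) : q μ A = qSet μ A := by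
  funext x
  unfold q qSet
  have hset : {ω : Sample X | 0 < limsup (fun n => (countIn A (pop x ω n) : ℕ∞)) atTop} =
      {ω : Sample X | ∃ N, ∀ n, N ≤ n → ∀ y ∈ A, pop x ω n y = 0}ᶜ := by
    ext ω
    simp only [mem_compl_iff]
    show 0 < limsup (fun n => (countIn A (pop x ω n) : ℕ∞)) atTop ↔ _
    rw [limsup_pos_iff]
    simp only [countIn_eq_zero]
    rfl
  have hmeas : MeasurableSet {ω : Sample X | ∃ N, ∀ n, N ≤ n → ∀ y ∈ A, pop x ω n y = 0} := by
    have : {ω : Sample X | ∃ N, ∀ n, N ≤ n → ∀ y ∈ A, pop x ω n y = 0} =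
        ⋃ N, ⋂ n, ⋂ (_ : N ≤ n), ZS x n A := by
      ext ω
      simp only [mem_iUnion, mem_iInter]
      rfl
    rw [this]
    exact MeasurableSet.iUnion fun N => MeasurableSet.iInter fun n =>
      MeasurableSet.iInter fun _ => ZS_meas x n A
  rw [hset, measureReal_compl hmeas, probReal_univ]
  ring

theorem mm_rpow {s : X → ℝ} (hs : Box s) (r : ℝ) (x : X) (n : ℕ) (ω : Sample X) :
    mm s x n ω ^ r = mm (fun y => s y ^ r) x n ω := by
  unfold mm mon Finsupp.prod
  rw [← Real.finsetProd_rpow _ _ fun y _ => pow_nonneg (hs y).1 _]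
  refine Finset.prod_congr rfl fun y _ => ?_
  show (s y ^ (pop x ω n y)) ^ r = (s y ^ r) ^ (pop x ω n y)
  rw [← Real.rpow_natCast, ← Real.rpow_natCast, ← Real.rpow_mul (hs y).1,
    ← Real.rpow_mul (hs y).1, mul_comm]

theorem box_rpow {s : X → ℝ} (hs : Box s) {r : ℝ} (hr : 0 ≤ r) : Box (fun y => s y ^ r) := fun y =>
  ⟨Real.rpow_nonneg (hs y).1 _, Real.rpow_le_one (hs y).1 (hs y).2 hr⟩

variable [Countable X]

/-- A fixed point below one everywhere lies below the local extinction vector unless there are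
continuum many fixed points. -/
theorem le_qPartial' (μ : X → PMF (X →₀ ℕ)) {s : X → ℝ} (hs : Box s) (hfix : gen μ s = s)
    (hlt : ∀ x, s x < 1) (hcard : Cardinal.mk (F μ) < Cardinal.continuum) : s ≤ qPartial μ := by
  have hex : ∀ x, ∃ M : Sample X → ℝ, Measurable M ∧
      ∀ᵐ ω ∂(law μ), Tendsto (fun n => mm s x n ω) atTop (𝓝 (M ω)) := fun x =>
    measurable_limit_of_tendsto_metrizable_ae (fun n => (mm_meas' s x n).aemeasurable)
      (exists_limit μ hs hfix x)
  choose M hMm hM using hex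
  have hM01 : ∀ x, ∀ᵐ ω ∂(law μ), 0 ≤ M x ω ∧ M x ω ≤ 1 := by
    intro x
    filter_upwards [hM x] with ω hω
    exact ⟨ge_of_tendsto' hω fun n => mm_nonneg hs x n ω, le_of_tendsto' hω fun n => mm_le_one hs x n ω⟩
  have hMint : ∀ x (k : Icc (1 : ℝ) 2), Integrable (fun ω => M x ω ^ (k : ℝ)) (law μ) := by
    intro x k
    have hk : (0 : ℝ) ≤ k := by have := k.2.1; linarith
    refine Integrable.of_bound ((hMm x).pow_const (k : ℝ)).aestronglyMeasurable 1 ?_
    filter_upwards [hM01 x] with ω hω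
    rw [Real.norm_of_nonneg (Real.rpow_nonneg hω.1 _)]
    exact Real.rpow_le_one hω.1 hω.2 hk
  set T : Icc (1 : ℝ) 2 → X → ℝ := fun k x => ∫ ω, M x ω ^ (k : ℝ) ∂(law μ) with hTdef
  have hT : ∀ k : Icc (1 : ℝ) 2, Tendsto (fun n => (gen μ)^[n] (fun y => s y ^ (k : ℝ))) atTop
      (𝓝 (T k)) := by
    intro k
    have hk : (0 : ℝ) ≤ k := by have := k.2.1; linarith
    rw [tendsto_pi_nhds]
    intro x
    have h1 : ∀ n, ((gen μ)^[n] (fun y => s y ^ (k : ℝ))) x =
        ∫ ω, mm s x n ω ^ (k : ℝ) ∂(law μ) := by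
      intro n
      rw [← int_mm μ (box_rpow hs hk) x n]
      refine integral_congr_ae (Eventually.of_forall fun ω => ?_)
      exact (mm_rpow hs k x n ω).symm
    simp_rw [h1]
    refine tendsto_integral_of_dominated_convergence (fun _ => 1) ?_ (integrable_const _) ?_ ?_
    · intro n
      exact ((mm_meas' s x n).pow_const (k : ℝ)).aestronglyMeasurable
    · intro n
      refine Eventually.of_forall fun ω => ?_
      rw [Real.norm_of_nonneg (Real.rpow_nonneg (mm_nonneg hs x n ω) _)]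
      exact Real.rpow_le_one (mm_nonneg hs x n ω) (mm_le_one hs x n ω) hk
    · filter_upwards [hM x] with ω hω
      exact hω.rpow_const (Or.inr hk)
  have hTbox : ∀ k, Box (T k) := by
    intro k x
    have hk : (0 : ℝ) ≤ k := by have := k.2.1; linarith
    have h := (tendsto_pi_nhds.1 (hT k)) x
    exact ⟨ge_of_tendsto' h fun n => (iter_gen_box μ n (box_rpow hs hk) x).1,
      le_of_tendsto' h fun n => (iter_gen_box μ n (box_rpow hs hk) x).2⟩
  have hTfix : ∀ k, gen μ (T k) = T k := by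
    intro k
    have hk : (0 : ℝ) ≤ k := by have := k.2.1; linarith
    have h1 := (gen_good μ).cont atTop (fun n => (gen μ)^[n] (fun y => s y ^ (k : ℝ))) (T k)
      (Eventually.of_forall fun n => iter_gen_box μ n (box_rpow hs hk)) (hTbox k) (hT k)
    have h2 : Tendsto (fun n => (gen μ)^[n + 1] (fun y => s y ^ (k : ℝ))) atTop (𝓝 (T k)) :=
      (tendsto_add_atTop_iff_nat 1).mpr (hT k)
    simp_rw [Function.iterate_succ_apply'] at h2
    exact tendsto_nhds_unique h1 h2
  have hnotinj : ¬ Function.Injective T := by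
    intro hinj
    have h1 : Cardinal.mk (Icc (1 : ℝ) 2) ≤ Cardinal.mk (F μ) :=
      Cardinal.mk_le_of_injective (f := fun k => (⟨T k, hTbox k, hTfix k⟩ : F μ)) fun k k' h =>
        hinj (congrArg Subtype.val h)
    rw [Cardinal.mk_Icc_real (by norm_num : (1 : ℝ) < 2)] at h1
    exact absurd hcard (not_lt.mpr h1)
  have hpig : ∃ a b : Icc (1 : ℝ) 2, (a : ℝ) < b ∧ T a = T b := by
    unfold Function.Injective at hnotinj
    push Not at hnotinj
    obtain ⟨a, b, hab, hne⟩ := hnotinj
    rcases lt_or_gt_of_ne hne with h | h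
    · exact ⟨a, b, h, hab⟩
    · exact ⟨b, a, h, hab.symm⟩
  obtain ⟨a, b, hab, hTab⟩ := hpig
  intro x
  have h01 : ∀ᵐ ω ∂(law μ), M x ω = 0 ∨ M x ω = 1 := by
    have h1 : ∫ ω, (M x ω ^ (a : ℝ) - M x ω ^ (b : ℝ)) ∂(law μ) = 0 := by
      rw [integral_sub (hMint x _) (hMint x _)]
      have := congrFun hTab x
      simp only [hTdef] at this
      rw [this, sub_self]
    have ha0 : (0 : ℝ) ≤ a := by have := a.2.1; linarith
    have h2 : 0 ≤ᵐ[law μ] fun ω => (M x ω ^ (a : ℝ) - M x ω ^ (b : ℝ)) := by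
      filter_upwards [hM01 x] with ω hω
      have : M x ω ^ (b : ℝ) ≤ M x ω ^ (a : ℝ) :=
        Real.rpow_le_rpow_of_exponent_ge' hω.1 hω.2 ha0 hab.le
      show 0 ≤ M x ω ^ (a : ℝ) - M x ω ^ (b : ℝ)
      linarith
    have h3 := (integral_eq_zero_iff_of_nonneg_ae h2 ((hMint x _).sub (hMint x _))).1 h1
    filter_upwards [h3, hM01 x] with ω hω hω2
    have h4 : M x ω ^ (a : ℝ) - M x ω ^ (b : ℝ) = 0 := hω
    by_cases h5 : M x ω = 0
    · exact Or.inl h5
    · right
      by_contra h6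
      have h7 : 0 < M x ω := lt_of_le_of_ne hω2.1 (Ne.symm h5)
      have h8 : M x ω < 1 := lt_of_le_of_ne hω2.2 h6
      have h9 : M x ω ^ (b : ℝ) < M x ω ^ (a : ℝ) := Real.rpow_lt_rpow_of_exponent_gt h7 h8 hab
      linarith
  have hone : (1 : ℝ) ∈ Icc (1 : ℝ) 2 := ⟨le_rfl, by norm_num⟩
  have hs1 : s x = ∫ ω, M x ω ∂(law μ) := by
    have h1 := (tendsto_pi_nhds.1 (hT ⟨1, hone⟩)) x
    have h2 : ∀ n, (gen μ)^[n] s = s := by
      intro n
      induction n with
      | zero => rfl
      | succ n ih => rw [Function.iterate_succ_apply', ih, hfix]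
    simp only [Real.rpow_one] at h1
    have h3 : Tendsto (fun _ : ℕ => s x) atTop (𝓝 (T ⟨1, hone⟩ x)) := by
      refine h1.congr fun n => ?_
      exact congrFun (h2 n) x
    have h4 := tendsto_nhds_unique h3 tendsto_const_nhds
    rw [← h4]
    simp only [hTdef, Real.rpow_one]
  have hA := Aev_meas (X := X) x
  have hle : ∀ᵐ ω ∂(law μ), M x ω ≤ (Aev x).indicator (fun _ => (1 : ℝ)) ω := by
    filter_upwards [h01, hM x] with ω h1 h2
    rcases h1 with h1 | h1
    · rw [h1]
      exact Set.indicator_nonneg (fun _ _ => zero_le_one) ω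
    · have hmem : ω ∈ Aev x := by
        intro y
        by_contra hinf
        have hfreq : ∃ᶠ n in atTop, pop x ω n y ≠ 0 :=
          Nat.frequently_atTop_iff_infinite.2 hinf
        have h3 : ∃ᶠ n in atTop, mm s x n ω ≤ s y :=
          hfreq.mono fun n hn => mon_le_coord hs _ y hn
        have h4 : M x ω ≤ s y := le_of_tendsto_of_frequently h2 h3
        rw [h1] at h4
        exact absurd h4 (not_le.2 (hlt y))
      rw [Set.indicator_of_mem hmem, h1]
  have hfinal : ∫ ω, M x ω ∂(law μ) ≤ ∫ ω, (Aev x).indicator (fun _ => (1 : ℝ)) ω ∂(law μ) := by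
    refine integral_mono_ae ?_ ((integrable_const _).indicator hA) hle
    simpa using hMint x ⟨1, hone⟩
  rw [hs1]
  refine hfinal.trans_eq ?_
  rw [integral_indicator hA]
  simp [qPartial, Aev, Measure.real]

theorem eq_qGlobal' (μ : X → PMF (X →₀ ℕ)) {s : X → ℝ} (hs : Box s) (hfix : gen μ s = s)
    (hlt : ∀ x, s x < 1) (hcard : Cardinal.mk (F μ) < Cardinal.continuum) : s = qGlobal μ := by
  have h1 : qGlobal μ ≤ s := by
    intro x
    have h := (tendsto_pi_nhds.1 (qGlobal_tendsto μ)) x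
    refine le_of_tendsto' h fun n => ?_
    have h2 : ∀ n, (gen μ)^[n] 0 ≤ s := by
      intro n
      induction n with
      | zero => exact fun y => (hs y).1
      | succ n ih =>
        rw [Function.iterate_succ_apply', ← hfix]
        exact (gen_good μ).mono _ _ (iter_gen_box μ n box_zero) hs ih
    exact h2 n x
  have h2 : qPartial μ = qGlobal μ := by
    by_contra hne
    obtain ⟨x0, hx0⟩ : ∃ x0, qGlobal μ x0 < qPartial μ x0 := by
      by_contra hcon
      push Not at hcon
      exact hne (le_antisymm hcon (qGlobal_le μ))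
    have h3 : Cardinal.mk (Set.Ioo (qGlobal μ x0) (qPartial μ x0)) = Cardinal.continuum :=
      Cardinal.mk_Ioo_real hx0
    choose t ht using fun c : Set.Ioo (qGlobal μ x0) (qPartial μ x0) =>
      exists_fixed μ x0 c.1 c.2.1 c.2.2
    have h4 : Function.Injective fun c => (⟨t c, (ht c).1, (ht c).2.1⟩ : F μ) := by
      intro c c' h
      have h' : t c = t c' := congrArg Subtype.val h
      apply Subtype.ext
      rw [← (ht c).2.2.2.2, ← (ht c').2.2.2.2, h']
    have h5 := Cardinal.mk_le_of_injective h4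
    rw [h3] at h5
    exact absurd hcard (not_lt.mpr h5)
  refine le_antisymm ?_ h1
  rw [← h2]
  exact le_qPartial' μ hs hfix hlt hcard

lemma card_le (μ : X → PMF (X →₀ ℕ)) : Cardinal.mk (F μ) ≤ Cardinal.continuum := by
  refine (Cardinal.mk_subtype_le _).trans ?_
  have h1 : Cardinal.mk (X → ℝ) = Cardinal.mk ℝ ^ Cardinal.mk X := by simp
  rw [h1, Cardinal.mk_real]
  calc Cardinal.continuum ^ Cardinal.mk X ≤ Cardinal.continuum ^ Cardinal.aleph0 :=
        Cardinal.power_le_power_left Cardinal.continuum_ne_zero (Cardinal.mk_le_aleph0)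
    _ = Cardinal.continuum := Cardinal.continuum_power_aleph0

/-- `s x < 1` propagates against the reproduction relation. -/
lemma lt_one_of_reproduces (μ : X → PMF (X →₀ ℕ)) {s : X → ℝ} (hs : Box s) (hfix : gen μ s = s)
    {x y : X} (h : Reproduces μ x y) (hy : s y < 1) : s x < 1 := by
  obtain ⟨f, hf, hfy⟩ := h
  have h0 : s x = gen μ s x := by rw [hfix]
  rw [h0]
  have h1 : gen μ s x < ∑' f, (μ x f).toReal := by
    refine Summable.tsum_lt_tsum (i := f)
      (fun g => mul_le_of_le_one_right ENNReal.toReal_nonneg (mon_le_one hs g)) ?_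
      (gen_summable μ hs x) (hasSum_pmf (μ x)).summable
    have h2 : mon s f < 1 := (mon_le_coord hs f y hfy).trans_lt hy
    have h3 : 0 < (μ x f).toReal := ENNReal.toReal_pos hf (PMF.apply_ne_top _ _)
    calc (μ x f).toReal * mon s f < (μ x f).toReal * 1 := mul_lt_mul_of_pos_left h2 h3
      _ = _ := mul_one _
  rwa [(hasSum_pmf (μ x)).tsum_eq] at h1

lemma lt_one_of_path (μ : X → PMF (X →₀ ℕ)) {s : X → ℝ} (hs : Box s) (hfix : gen μ s = s)
    {x y : X} (h : Relation.ReflTransGen (Reproduces μ) x y) (hy : s y < 1) : s x < 1 := by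
  induction h using Relation.ReflTransGen.head_induction_on with
  | refl => exact hy
  | head h1 _ ih => exact lt_one_of_reproduces μ hs hfix h1 ih

lemma q_univ (μ : X → PMF (X →₀ ℕ)) : q μ univ = qGlobal μ := by
  rw [q_eq]
  funext x
  unfold qSet qGlobal
  congr 1
  ext ω
  constructor
  · rintro ⟨N, hN⟩
    exact ⟨N, Finsupp.ext fun y => hN N le_rfl y (mem_univ y)⟩
  · rintro ⟨n, hn⟩
    refine ⟨n, fun m hm y _ => ?_⟩
    have h : ∀ k, pop x ω (n + k) = 0 := by
      intro k
      induction k with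
      | zero => exact hn
      | succ k ih => exact pop_zero_succ x ω (n + k) ih
    obtain ⟨k, rfl⟩ := Nat.exists_eq_add_of_le hm
    rw [h k]; rfl

lemma q_empty (μ : X → PMF (X →₀ ℕ)) : q μ ∅ = 1 := by
  rw [q_eq]
  funext x
  unfold qSet
  have : {ω : Sample X | ∃ N, ∀ n, N ≤ n → ∀ y ∈ (∅ : Set X), pop x ω n y = 0} = univ := by
    ext ω; simp
  rw [this, probReal_univ]
  rfl

/-- **MP_087ef2_pr, Q1: no.** For an irreducible branching random walk on a countable set, either
`F_G = E_G = {q̄, 1}`, or `F_G` has the cardinality of the continuum. In particular, if `F_G` is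
finite then `E_G = F_G`; there is no irreducible BRW with `|E_G| < |F_G| < ∞`. -/
theorem result (X : Type) [Countable X] (μ : X → PMF (X →₀ ℕ)) (hirr : IsIrreducible μ) :
    ((F μ = {q μ univ, 1} ∧ E μ = {q μ univ, 1}) ∨ Cardinal.mk (F μ) = Cardinal.continuum) ∧
      ((F μ).Finite → E μ = F μ) ∧ ¬ ((F μ).Finite ∧ Cardinal.mk (E μ) < Cardinal.mk (F μ)) := by
  have hEF : E μ ⊆ F μ := by
    rintro _ ⟨A, rfl⟩
    rw [q_eq]
    exact ⟨qSet_box μ A, qSet_fixed μ A⟩
  have hqE : ({q μ univ, 1} : Set (X → ℝ)) ⊆ E μ := by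
    rintro z (rfl | rfl)
    · exact ⟨univ, rfl⟩
    · exact ⟨∅, (q_empty μ).symm⟩
  have main : Cardinal.mk (F μ) < Cardinal.continuum → F μ ⊆ {q μ univ, 1} := by
    rintro hcard s ⟨hs, hfix⟩
    by_cases h1 : ∀ x, s x = 1
    · right
      exact funext h1
    · left
      push Not at h1
      obtain ⟨x0, hx0⟩ := h1
      have hlt : ∀ x, s x < 1 := fun x =>
        lt_one_of_path μ hs hfix (hirr x x0) (lt_of_le_of_ne (hs x0).2 hx0)
      rw [q_univ]
      exact eq_qGlobal' μ hs hfix hlt hcard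
  have hfin : (F μ).Finite → E μ = F μ := by
    intro hfin
    have hcard : Cardinal.mk (F μ) < Cardinal.continuum :=
      (Cardinal.lt_aleph0_iff_set_finite.mpr hfin).trans Cardinal.aleph0_lt_continuum
    exact Subset.antisymm hEF ((main hcard).trans hqE)
  refine ⟨?_, hfin, ?_⟩
  · rcases (card_le μ).lt_or_eq with h | h
    · left
      have h1 := main h
      exact ⟨Subset.antisymm h1 (hqE.trans hEF), Subset.antisymm (hEF.trans h1) hqE⟩
    · exact Or.inr h
  · rintro ⟨h1, h2⟩
    rw [hfin h1] at h2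
    exact lt_irrefl _ h2

end

end Pool.Agent.Results.MP_087ef2_pr.Dichotomy
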